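import Mathlib

/-!
# A homogeneous game space with infinite cop number

The space is the infinite torus `(ℝ/ℤ)^ℕ` with the metric
`d(x, y) = sup_n 2^{-n} d(x_n, y_n)`. Against `k` cops the robber uses the first `k` coordinates:
in the `i`-th coordinate he always moves to the point antipodal to the `i`-th cop.
-/

open Filter Topology Set

namespace Pool.Agent.Results.MP_cb1e0a_co.InfiniteTorus

/-- A metric space is geodesic if any two points are joined by a path whose length (the supremum of
the lengths of inscribed polygons) is exactly their distance. -/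
def IsGeodesicSpace (X : Type) [MetricSpace X] : Prop :=
  ∀ x y : X, ∃ p : ℝ → X, ContinuousOn p (Icc 0 1) ∧ p 0 = x ∧ p 1 = y ∧
    eVariationOn p (Icc 0 1) = edist x y

/-- The isometry group acts transitively. -/
def IsHomogeneous (X : Type) [MetricSpace X] : Prop :=
  ∀ x y : X, ∃ i : X ≃ᵢ X, i x = y

/-- `c n i` is the position of cop `i` after step `n`. The cops start at `start`, and in step
`n + 1` each of them moves by at most `τ (n + 1)`. -/
def IsCopPlay {X : Type} [MetricSpace X] {k : ℕ} (start : Fin k → X) (τ : ℕ → ℝ)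
    (c : ℕ → Fin k → X) : Prop :=
  c 0 = start ∧ ∀ (n : ℕ) (i : Fin k), dist (c n i) (c (n + 1) i) ≤ τ (n + 1)

/-- A strategy of the robber against `k` cops: starting positions of the cops, an agility function,
and for every `n` the robber's position after his `n`-th move as a function of the earlier
positions `c 0, …, c (n - 1)` of the cops (for `n = 0` it is his starting point). His moves have to
be legal, whatever the cops do. -/
structure RobberStrategy (X : Type) [MetricSpace X] (k : ℕ) where
  /-- starting positions of the cops -/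
  start : Fin k → X
  /-- the agility function -/
  τ : ℕ → ℝ
  /-- position of the robber after his `n`-th move -/
  pos : (n : ℕ) → (Fin n → Fin k → X) → X
  τ_pos : ∀ n, 0 < τ n
  τ_sum : Tendsto (fun N => ∑ n ∈ Finset.range N, τ (n + 1)) atTop atTop
  legal : ∀ c : ℕ → Fin k → X, IsCopPlay start τ c → ∀ n : ℕ,
    dist (pos n fun j => c j) (pos (n + 1) fun j => c j) ≤ τ (n + 1)

/-- The robber strategy `S` wins: against every play of the cops, the distances between the robber
and the cops stay bounded below by a positive constant. -/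
def RobberStrategy.Wins {X : Type} [MetricSpace X] {k : ℕ} (S : RobberStrategy X k) : Prop :=
  ∀ c : ℕ → Fin k → X, IsCopPlay S.start S.τ c →
    ∃ v : ℝ, 0 < v ∧ ∀ (n : ℕ) (i : Fin k), v ≤ dist (S.pos n fun j => c j) (c n i)

/-! ### The infinite torus -/

/-- The infinite torus. -/
def Tor : Type := ℕ → AddCircle (1 : ℝ)

/-- the `n`-th term of the supremum defining the distance -/
noncomputable def term (x y : Tor) (n : ℕ) : ℝ := (1 / 2 : ℝ) ^ n * ‖x n - y n‖

theorem norm_le (a : AddCircle (1 : ℝ)) : ‖a‖ ≤ 1 / 2 := by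
  have := AddCircle.norm_le_half_period (p := (1 : ℝ)) one_ne_zero (x := a)
  simpa using this

theorem term_nonneg (x y : Tor) (n : ℕ) : 0 ≤ term x y n := by
  unfold term; positivity

theorem term_le (x y : Tor) (n : ℕ) : term x y n ≤ (1 / 2 : ℝ) ^ n * (1 / 2) := by
  unfold term
  exact mul_le_mul_of_nonneg_left (norm_le _) (by positivity)

theorem term_le_one (x y : Tor) (n : ℕ) : term x y n ≤ 1 := by
  refine (term_le x y n).trans ?_
  have : (1 / 2 : ℝ) ^ n ≤ 1 := pow_le_one₀ (by norm_num) (by norm_num)
  linarith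

theorem bdd (x y : Tor) : BddAbove (range (term x y)) := ⟨1, by
  rintro _ ⟨n, rfl⟩
  exact term_le_one x y n⟩

noncomputable instance : MetricSpace Tor where
  dist x y := ⨆ n, term x y n
  dist_self x := by simp [term]
  dist_comm x y := by
    congr 1
    funext n
    simp only [term]
    rw [norm_sub_rev]
  dist_triangle x y z := by
    apply ciSup_le
    intro n
    have h1 : term x z n ≤ term x y n + term y z n := by
      simp only [term]
      rw [← mul_add]
      apply mul_le_mul_of_nonneg_left _ (by positivity)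
      have : x n - z n = (x n - y n) + (y n - z n) := by abel
      rw [this]
      exact norm_add_le _ _
    exact h1.trans (add_le_add (le_ciSup (bdd x y) n) (le_ciSup (bdd y z) n))
  eq_of_dist_eq_zero := by
    intro x y h
    funext n
    have h1 : term x y n ≤ 0 := by
      rw [← h]
      exact le_ciSup (bdd x y) n
    have h2 : ‖x n - y n‖ ≤ 0 := by
      unfold term at h1
      by_contra h3
      push Not at h3
      have : 0 < (1 / 2 : ℝ) ^ n * ‖x n - y n‖ := by positivity
      linarith
    exact sub_eq_zero.mp (norm_le_zero_iff.mp h2)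

theorem dist_def (x y : Tor) : dist x y = ⨆ n, term x y n := rfl

theorem term_le_dist (x y : Tor) (n : ℕ) : term x y n ≤ dist x y := le_ciSup (bdd x y) n

theorem dist_le {x y : Tor} {c : ℝ} (h : ∀ n, term x y n ≤ c) : dist x y ≤ c := ciSup_le h

/-- The identity from the product to the torus. -/
def toTor (x : ℕ → AddCircle (1 : ℝ)) : Tor := x

theorem continuous_toTor : Continuous toTor := by
  rw [continuous_iff_continuousAt]
  intro x
  rw [ContinuousAt, tendsto_iff_dist_tendsto_zero]
  rw [Metric.tendsto_nhds]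
  intro ε hε
  obtain ⟨N, hN⟩ := exists_pow_lt_of_lt_one (show (0 : ℝ) < ε / 2 by positivity)
    (show (1 / 2 : ℝ) < 1 by norm_num)
  have h1 : ∀ᶠ y in 𝓝 x, ∀ n ∈ Finset.range N, ‖y n - x n‖ < ε / 2 := by
    rw [Filter.eventually_all_finset]
    intro n _
    have h2 : Tendsto (fun y : ℕ → AddCircle (1 : ℝ) => ‖y n - x n‖) (𝓝 x) (𝓝 ‖x n - x n‖) :=
      (((continuous_apply n).sub continuous_const).norm).tendsto x
    rw [sub_self, norm_zero] at h2
    exact h2.eventually_lt_const (by positivity)
  filter_upwards [h1] with y hy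
  rw [Real.dist_eq, sub_zero, abs_of_nonneg dist_nonneg]
  have h3 : dist (toTor y) (toTor x) ≤ ε / 2 := by
    apply dist_le
    intro n
    by_cases hn : n < N
    · have h4 := hy n (Finset.mem_range.mpr hn)
      have h5 : (1 / 2 : ℝ) ^ n ≤ 1 := pow_le_one₀ (by norm_num) (by norm_num)
      have h6 : term (toTor y) (toTor x) n = (1 / 2 : ℝ) ^ n * ‖y n - x n‖ := rfl
      rw [h6]
      have h7 : (1 / 2 : ℝ) ^ n * ‖y n - x n‖ ≤ 1 * ‖y n - x n‖ :=
        mul_le_mul_of_nonneg_right h5 (norm_nonneg _)
      linarith
    · refine (term_le _ _ n).trans ?_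
      have h5 : (1 / 2 : ℝ) ^ n ≤ (1 / 2 : ℝ) ^ N :=
        pow_le_pow_of_le_one (by norm_num) (by norm_num) (by lia)
      have h6 : (0 : ℝ) ≤ (1 / 2 : ℝ) ^ N := by positivity
      linarith
  linarith

instance : CompactSpace Tor := by
  have : Function.Surjective toTor := fun x => ⟨x, rfl⟩
  exact this.compactSpace continuous_toTor

/-! ### Homogeneity -/

/-- translation -/
def trans (a : Tor) : Tor ≃ Tor where
  toFun x := fun n => x n + a n
  invFun x := fun n => x n - a n
  left_inv x := by funext n; simp
  right_inv x := by funext n; simp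

theorem homogeneous : IsHomogeneous Tor := by
  intro x y
  refine ⟨⟨trans (fun n => y n - x n), ?_⟩, ?_⟩
  · apply Isometry.of_dist_eq
    intro u v
    rw [dist_def, dist_def]
    congr 1
    funext n
    change (1 / 2 : ℝ) ^ n * ‖(u n + (y n - x n)) - (v n + (y n - x n))‖ = _
    rw [add_sub_add_right_eq_sub]
    rfl
  · funext n
    change x n + (y n - x n) = y n
    abel

/-! ### Geodesics -/

theorem exists_lift (a : AddCircle (1 : ℝ)) : ∃ t : ℝ, (t : AddCircle (1 : ℝ)) = a ∧
    |t| = ‖a‖ ∧ |t| ≤ 1 / 2 := by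
  induction a using QuotientAddGroup.induction_on with
  | H u =>
    refine ⟨u - round u, ?_, ?_, abs_sub_round u⟩
    · have : ((round u : ℝ) : AddCircle (1 : ℝ)) = 0 := by
        rw [AddCircle.coe_eq_zero_iff]
        exact ⟨round u, by simp⟩
      rw [AddCircle.coe_sub, this, sub_zero]
    · have := AddCircle.norm_eq (p := (1 : ℝ)) (x := u)
      rw [this]
      simp

theorem norm_coe {t : ℝ} (ht : |t| ≤ 1 / 2) : ‖(t : AddCircle (1 : ℝ))‖ = |t| := by
  rw [AddCircle.norm_coe_eq_abs_iff (1 : ℝ) one_ne_zero]
  simpa using ht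

theorem geodesic : IsGeodesicSpace Tor := by
  intro x y
  choose t ht1 ht2 ht3 using fun n => exists_lift (y n - x n)
  set p : ℝ → Tor := fun s n => x n + ((s * t n : ℝ) : AddCircle (1 : ℝ)) with hp
  have hd : ∀ n, term x y n = (1 / 2 : ℝ) ^ n * |t n| := by
    intro n
    rw [term, norm_sub_rev, ← ht2]
  have hdist : ∀ s ∈ Icc (0 : ℝ) 1, ∀ s' ∈ Icc (0 : ℝ) 1,
      dist (p s) (p s') = |s - s'| * dist x y := by
    intro s hs s' hs'
    rw [dist_def, dist_def, Real.mul_iSup_of_nonneg (abs_nonneg _)]
    congr 1
    funext n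
    rw [hd]
    have h1 : p s n - p s' n = (((s - s') * t n : ℝ) : AddCircle (1 : ℝ)) := by
      simp only [hp]
      rw [add_sub_add_left_eq_sub, ← AddCircle.coe_sub, ← sub_mul]
    have h2 : |(s - s') * t n| ≤ 1 / 2 := by
      rw [abs_mul]
      have : |s - s'| ≤ 1 := by
        rw [abs_le]
        constructor <;> linarith [hs.1, hs.2, hs'.1, hs'.2]
      calc |s - s'| * |t n| ≤ 1 * (1 / 2) :=
            mul_le_mul this (ht3 n) (abs_nonneg _) (by norm_num)
        _ = 1 / 2 := by norm_num
    rw [term, h1, norm_coe h2, abs_mul]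
    ring
  have hp0 : p 0 = x := by
    funext n
    simp [hp]
  have hp1 : p 1 = y := by
    funext n
    simp only [hp, one_mul]
    rw [ht1]
    abel
  have hlip : LipschitzOnWith (Real.toNNReal (dist x y)) p (Icc 0 1) := by
    apply LipschitzOnWith.of_dist_le_mul
    intro s hs s' hs'
    rw [hdist s hs s' hs', Real.coe_toNNReal _ dist_nonneg, Real.dist_eq, mul_comm]
  refine ⟨p, hlip.continuousOn, hp0, hp1, le_antisymm ?_ ?_⟩
  · have h1 := hlip.comp_eVariationOn_le (f := p) (g := (id : ℝ → ℝ)) (s := Icc 0 1)
      (fun s hs => hs)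
    rw [Function.comp_id] at h1
    refine h1.trans ?_
    have h2 : eVariationOn (id : ℝ → ℝ) (Icc 0 1 ∩ Icc 0 1) = ENNReal.ofReal (id 1 - id 0) :=
      MonotoneOn.eVariationOn_eq (monotone_id.monotoneOn _) (by simp) (by simp)
    rw [inter_self] at h2
    have h3 : eVariationOn (id : ℝ → ℝ) (Icc 0 1) ≤ 1 := by rw [h2]; simp
    calc (Real.toNNReal (dist x y) : ENNReal) * eVariationOn (id : ℝ → ℝ) (Icc 0 1)
        ≤ (Real.toNNReal (dist x y) : ENNReal) * 1 := by gcongr
      _ = edist x y := by rw [mul_one, edist_dist]; rfl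
  · have := eVariationOn.edist_le p (s := Icc (0 : ℝ) 1) (x := 0) (y := 1) (by simp) (by simp)
    rwa [hp0, hp1] at this

/-! ### The strategy -/

/-- the point `1/2` -/
noncomputable def half : AddCircle (1 : ℝ) := ((1 / 2 : ℝ) : AddCircle (1 : ℝ))

theorem norm_half : ‖half‖ = 1 / 2 := by
  rw [half, norm_coe (by rw [abs_of_nonneg (by norm_num)])]
  rw [abs_of_nonneg]
  norm_num

/-- position of the robber -/
noncomputable def rpos (k : ℕ) : (n : ℕ) → (Fin n → Fin k → Tor) → Tor
  | 0, _ => fun _ => half
  | n + 1, h => fun m => if hm : m < k then h (Fin.last n) ⟨m, hm⟩ m + half else half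

theorem robber_wins (k : ℕ) : ∃ S : RobberStrategy Tor k, S.Wins := by
  set t0 : ℝ := (1 / 2 : ℝ) ^ k / 4 with ht0
  have ht0pos : 0 < t0 := by positivity
  refine ⟨{ start := fun _ _ => 0
            τ := fun _ => t0
            pos := rpos k
            τ_pos := fun _ => ht0pos
            τ_sum := ?_
            legal := ?_ }, ?_⟩
  · simp only [Finset.sum_const, Finset.card_range, nsmul_eq_mul]
    exact Tendsto.atTop_mul_const ht0pos tendsto_natCast_atTop_atTop
  · intro c hc n
    apply dist_le
    intro m
    rcases n with _ | n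
    · simp only [term, rpos]
      by_cases hm : m < k
      · rw [dif_pos hm]
        have : c ((Fin.last 0 : Fin 1) : ℕ) = c 0 := rfl
        rw [this, hc.1]
        simp
        exact ht0pos.le
      · rw [dif_neg hm]
        simp
        exact ht0pos.le
    · simp only [term, rpos]
      by_cases hm : m < k
      · rw [dif_pos hm, dif_pos hm]
        have e1 : c ((Fin.last n : Fin (n + 1)) : ℕ) = c n := by simp
        have e2 : c ((Fin.last (n + 1) : Fin (n + 1 + 1)) : ℕ) = c (n + 1) := by simp
        rw [e1, e2, add_sub_add_right_eq_sub]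
        exact (term_le_dist (c n ⟨m, hm⟩) (c (n + 1) ⟨m, hm⟩) m).trans (hc.2 n ⟨m, hm⟩)
      · rw [dif_neg hm, dif_neg hm]
        simp
        exact ht0pos.le
  · intro c hc
    refine ⟨t0, ht0pos, fun n i => ?_⟩
    have hi : (1 / 2 : ℝ) ^ k ≤ (1 / 2 : ℝ) ^ (i : ℕ) :=
      pow_le_pow_of_le_one (by norm_num) (by norm_num) i.2.le
    refine le_trans ?_ (term_le_dist _ _ (i : ℕ))
    rcases n with _ | n
    · simp only [term, rpos]
      rw [hc.1]
      simp only [sub_zero]
      rw [norm_half]
      rw [ht0]
      linarith [show (0 : ℝ) < (1 / 2 : ℝ) ^ k by positivity]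
    · simp only [term, rpos]
      rw [dif_pos i.2]
      have e1 : c ((Fin.last n : Fin (n + 1)) : ℕ) = c n := by simp
      rw [e1]
      have h1 : term (c n i) (c (n + 1) i) i ≤ t0 :=
        (term_le_dist (c n i) (c (n + 1) i) i).trans (hc.2 n i)
      have h2 : ‖half‖ ≤ ‖c n i i + half - c (n + 1) i i‖ + ‖c n i i - c (n + 1) i i‖ := by
        have : half = (c n i i + half - c (n + 1) i i) - (c n i i - c (n + 1) i i) := by abel
        calc ‖half‖ = ‖(c n i i + half - c (n + 1) i i) - (c n i i - c (n + 1) i i)‖ := by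
              rw [← this]
          _ ≤ _ := norm_sub_le _ _
      rw [norm_half] at h2
      have h3 : (1 / 2 : ℝ) ^ (i : ℕ) * (1 / 2) ≤
          (1 / 2 : ℝ) ^ (i : ℕ) * ‖c n i i + half - c (n + 1) i i‖ +
          (1 / 2 : ℝ) ^ (i : ℕ) * ‖c n i i - c (n + 1) i i‖ := by
        rw [← mul_add]
        exact mul_le_mul_of_nonneg_left h2 (by positivity)
      unfold term at h1
      have h4 : (⟨(i : ℕ), i.2⟩ : Fin k) = i := rfl
      rw [h4]
      rw [ht0] at h1 ⊢
      linarith

/-- There is a compact geodesic metric space with a transitive isometry group on which, for every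
number `k` of cops, the robber has a strategy that wins against every play of the cops. -/
theorem result : ∃ (X : Type) (_ : MetricSpace X), CompactSpace X ∧ IsGeodesicSpace X ∧
    IsHomogeneous X ∧ ∀ k : ℕ, ∃ S : RobberStrategy X k, S.Wins :=
  ⟨Tor, inferInstance, inferInstance, geodesic, homogeneous, robber_wins⟩

end Pool.Agent.Results.MP_cb1e0a_co.InfiniteTorus
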